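import Mathlib
import Pool.Agent.Q8.QH.Four

/-!
# The `2 ^ ∞`-Selmer groups of the elliptic curves over `ℚ` with a cyclic 4-isogeny, by height

The elliptic curves `y² = x³ + A x + B` over `ℚ` with a rational point `(t, 0)` of order two such that
`3 t² + A` is a square, ordered by height. (The points `P` with `2 P = (t, 0)` have
`x(P) = t ± √(3 t² + A)`, so these are the curves with a rational cyclic subgroup of order four.) We
prove that for almost all of them the rank and all the quotients `#S[2 ^ j] / #S[2]`, `S` the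
`2 ^ ∞`-Selmer group, are bounded in the sense below, while the dimension of `S[2]` (and that of
`Ш[2]`) over the field of two elements is `(3 / 2 + o(1)) log log H`. In particular every isomorphism
class of `2 ^ ∞`-Selmer groups has density zero in this family, in contrast to the distribution of
Bhargava-Kane-Lenstra-Poonen-Rains for all the elliptic curves.
-/

set_option autoImplicit false

namespace Pool.Agent.Results.MP_a3f657_nt.CyclicFourByHeight

open Finset Filter Pool.Agent.TH841.SH.D Pool.Agent.Q243.PR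

/-- the curve `y² = x³ + A x + B` over `ℚ` -/
def E (c : ℤ × ℤ) : WeierstrassCurve ℚ := ⟨0, 0, 0, (c.1 : ℚ), (c.2 : ℚ)⟩

open Classical in
/-- The pairs `(A, B)` of integers such that `4 A³ + 27 B² ≠ 0`, there is no prime `p` with
`p⁴ ∣ A` and `p⁶ ∣ B`, the height `max (4 |A|³) (27 B²)` is at most `H`, and there is an integer `t` with
`t³ + A t + B = 0` such that `3 t² + A` is a square. (The bounds `|A|, |B| ≤ H` follow from the bound of
the height. Every elliptic curve over `ℚ` is isomorphic to `E (A, B)` for exactly one pair with the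
first two properties.) -/
noncomputable def Fam (H : ℕ) : Finset (ℤ × ℤ) :=
  ((Icc (-(H : ℤ)) H) ×ˢ (Icc (-(H : ℤ)) H)).filter (fun c : ℤ × ℤ =>
    4 * c.1 ^ 3 + 27 * c.2 ^ 2 ≠ 0 ∧ 4 * |c.1| ^ 3 ≤ H ∧ 27 * c.2 ^ 2 ≤ H ∧
    (∀ p : ℕ, p.Prime → ¬ ((p : ℤ) ^ 4 ∣ c.1 ∧ (p : ℤ) ^ 6 ∣ c.2)) ∧
    ∃ t s : ℤ, t ^ 3 + c.1 * t + c.2 = 0 ∧ 3 * t ^ 2 + c.1 = s ^ 2)

/-- The `2 ^ ∞`-Selmer group `ker (H¹(ℚ, W[2 ^ ∞]) → ∏ H¹(ℚ_v, W))`: continuous cocycles of the
absolute Galois group of `ℚ` with values in the points of 2-power order, which are coboundaries of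
points of `W` over all the completions of `ℚ`, modulo the coboundaries of the points of 2-power
order. -/
abbrev Sel (W : WeierstrassCurve ℚ) : Type := SelInf W

/-- its subgroup of the elements killed by `2 ^ j` -/
abbrev SelTor (W : WeierstrassCurve ℚ) (j : ℕ) : Type := SelInfTor W j

/-- The curve `E c` is normal: its rank is at most `R`; the groups `Ш[2 ^ j]` and `S[2 ^ j]`, `S` the
`2 ^ ∞`-Selmer group, are finite; the dimensions of `Ш[2]` and of `S[2]` over the field of two
elements differ from `(3 / 2) log log H` by at most `δ log log H`; and for `j ≥ 1` the orders of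
`Ш[2 ^ j]` and `S[2 ^ j]` are at most `2 ^ (R j)` times those of `Ш[2]` and `S[2]`. -/
def Normal (R : ℕ) (δ : ℝ) (H : ℕ) (c : ℤ × ℤ) : Prop :=
  rk (E c) ≤ R ∧ (∀ j : ℕ, Finite (ShaTor (E c) (2 ^ j))) ∧ (∀ j : ℕ, Finite (SelTor (E c) j)) ∧
    |Real.logb 2 (Nat.card (ShaTor (E c) 2)) - 3 / 2 * Real.log (Real.log H)| ≤
      δ * Real.log (Real.log H) ∧
    |Real.logb 2 (Nat.card (SelTor (E c) 1)) - 3 / 2 * Real.log (Real.log H)| ≤
      δ * Real.log (Real.log H) ∧
    (∀ j : ℕ, 1 ≤ j → Nat.card (ShaTor (E c) (2 ^ j)) ≤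
      2 ^ (R * j) * Nat.card (ShaTor (E c) 2)) ∧
    ∀ j : ℕ, 1 ≤ j → Nat.card (SelTor (E c) j) ≤ 2 ^ (R * j) * Nat.card (SelTor (E c) 1)

open Classical in
/-- **Theorem.** The number of the curves in `Fam H` tends to infinity with `H`. (1) For all
`δ, ε > 0` there are `R` and `H₀` such that for `H ≥ H₀` all the curves in `Fam H` with at most
`ε #(Fam H)` exceptions are normal. (2) For every abelian group `T` with finitely many elements of
order dividing two (for instance `(ℚ₂ / ℤ₂) ^ r ⊕ G` with `G` finite) the proportion of the curves in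
`Fam H` whose `2 ^ ∞`-Selmer group is isomorphic to `T` tends to zero. -/
theorem result :
    Tendsto (fun H : ℕ => (Fam H).card) atTop atTop ∧
    (∀ δ ε : ℝ, 0 < δ → 0 < ε → ∃ R H₀ : ℕ, ∀ H : ℕ, H₀ ≤ H →
      (((Fam H).filter (fun c => ¬ Normal R δ H c)).card : ℝ) ≤ ε * (Fam H).card) ∧
    ∀ (T : Type) [AddCommGroup T], Finite {x : T // x + x = 0} → ∀ ε : ℝ, 0 < ε →
      ∃ H₀ : ℕ, ∀ H : ℕ, H₀ ≤ H →
      (((Fam H).filter (fun c => Nonempty (Sel (E c) ≃+ T))).card : ℝ) ≤ ε * (Fam H).card :=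
  ⟨Pool.Agent.Q8.QH.low_tendsto Pool.Agent.Q8.QH.low4,
    fun δ ε hδ hε => Pool.Agent.Q8.QH.four_final δ hδ ε hε,
    fun T _ hT ε hε => Pool.Agent.Q8.QH.four_zero T hT ε hε⟩

end Pool.Agent.Results.MP_a3f657_nt.CyclicFourByHeight
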