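import Pool.Agent.Q243.PR.InfFour
import Pool.Agent.Results.MP_e23604_nt.NormalOrderPairs

/-!
# The `2 ^ ∞`-Selmer groups of almost all curves with full 2-torsion and of their 2-isogenous curves

Let `E : y² = x (x - A) (x - B)`, `A = D m`, `B = D n` with coprime `m, n`, and let `E'_0, E'_1, E'_2`
be the quotients of `E` by its three subgroups of order two. For almost all pairs `(m, n)` of every
short square: the `2 ^ ∞`-Selmer group `S` of `E` satisfies `#S[2 ^ j] ≤ 2 ^ (R j)` for all `j`, while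
for each of the three curves `E'_i` the dimension of `S[2]` over the field of two elements is
`(3 / 2 + o (1)) log log X`, and `#S[2 ^ j] ≤ 2 ^ (R j) #S[2]` for all `j` (in particular the corank is
at most `R`). So every isomorphism class of cofinitely generated groups has density zero for each
of the curves `E'_i`, in contrast to the distribution of Bhargava-Kane-Lenstra-Poonen-Rains for all the
curves.

The theorem on the Tate-Shafarevich groups is `NormalOrderPairs` (MP_e23604_nt); the new part is the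
comparison of the groups `Sel_{2 ^ ∞}[2 ^ j]` and `Ш[2 ^ j]` for all elliptic curves over `ℚ`
(`Pool.Agent.Q243.PR.card_inf'`), which uses divisibility of the points over the algebraic closure
and the Mordell-Weil theorem for curves without full rational 2-torsion.
-/

set_option autoImplicit false

namespace Pool.Agent.Results.MP_a3f657_nt.IsogenousCurves

open WeierstrassCurve Finset Pool.Agent.TH841.SH.D Pool.Agent.Q243.PR

/-- the curve `y² = x (x - A) (x - B)` -/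
def E (A B : ℤ) : WeierstrassCurve ℚ := ⟨0, -((A : ℚ) + B), 0, (A : ℚ) * B, 0⟩

/-- the quotient of `y² = x (x - a) (x - b)` by its subgroup generated by `(0, 0)`: the curve
`y² = x³ + 2 (a + b) x² + (a - b)² x` -/
def Q (a b : ℤ) : WeierstrassCurve ℚ := ⟨0, 2 * ((a : ℚ) + b), 0, ((a : ℚ) - b) ^ 2, 0⟩

/-- the quotients of `E A B` by the subgroups generated by `(0, 0)`, `(A, 0)`, `(B, 0)` -/
def E' (i : Fin 3) (A B : ℤ) : WeierstrassCurve ℚ := ![Q A B, Q (-A) (B - A), Q (-B) (A - B)] i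

/-- The `2 ^ ∞`-Selmer group `ker (H¹(ℚ, W[2 ^ ∞]) → ∏ H¹(ℚ_v, W))`: continuous cocycles of the
absolute Galois group of `ℚ` with values in the points of 2-power order, which are coboundaries of
points of `W` over all the completions of `ℚ`, modulo the coboundaries of the points of 2-power
order. -/
abbrev Sel (W : WeierstrassCurve ℚ) : Type := SelInf W

/-- its subgroup of the elements killed by `2 ^ j` -/
abbrev SelTor (W : WeierstrassCurve ℚ) (j : ℕ) : Type := SelInfTor W j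

/-- The pair `(A, B)` is normal: `E A B` is an elliptic curve, its `2 ^ ∞`-Selmer group `S` has finite
subgroups `S[2 ^ j]`, of order at most `2 ^ (R j)`, and for the three 2-isogenous curves the groups
`S[2 ^ j]` are finite, the dimension of `S[2]` over the field of two elements differs from
`(3 / 2) log log X` by at most `δ log log X`, and the order of `S[2 ^ j]` is at most `2 ^ (R j)` times
the order of `S[2]`. -/
def Normal (R : ℕ) (δ : ℝ) (X : ℕ) (A B : ℤ) : Prop :=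
  A ≠ 0 ∧ B ≠ 0 ∧ A ≠ B ∧ (∀ j : ℕ, Finite (SelTor (E A B) j)) ∧
    (∀ j : ℕ, 1 ≤ j → Nat.card (SelTor (E A B) j) ≤ 2 ^ (R * j)) ∧
    ∀ i : Fin 3, (∀ j : ℕ, Finite (SelTor (E' i A B) j)) ∧
      |Real.logb 2 (Nat.card (SelTor (E' i A B) 1)) - 3 / 2 * Real.log (Real.log X)| ≤
        δ * Real.log (Real.log X) ∧
      ∀ j : ℕ, 1 ≤ j → Nat.card (SelTor (E' i A B) j) ≤
        2 ^ (R * j) * Nat.card (SelTor (E' i A B) 1)

lemma inf_quots {A B : ℤ} (hA : A ≠ 0) (hB : B ≠ 0) (hAB : A ≠ B) (i : Fin 3) (j : ℕ)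
    (hS : Finite (ShaTor (E' i A B) (2 ^ j))) : Finite (SelTor (E' i A B) j) ∧
      Nat.card (ShaTor (E' i A B) (2 ^ j)) ≤ Nat.card (SelTor (E' i A B) j) ∧
      Nat.card (SelTor (E' i A B) j) ≤
        2 ^ ((rk (E' i A B) + 2) * j) * Nat.card (ShaTor (E' i A B) (2 ^ j)) := by
  fin_cases i
  · exact inf_quot hA hB hAB j hS
  · exact inf_quot (neg_ne_zero.2 hA) (sub_ne_zero.2 hAB.symm)
      (fun h => hB (by omega)) j hS
  · exact inf_quot (neg_ne_zero.2 hB) (sub_ne_zero.2 hAB)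
      (fun h => hA (by omega)) j hS

lemma normal_of {R : ℕ} {δ : ℝ} {X : ℕ} {A B : ℤ}
    (hl : (R : ℝ) + 2 ≤ δ / 2 * Real.log (Real.log X))
    (h : Pool.Agent.Results.MP_e23604_nt.NormalOrderPairs.Normal R (δ / 2) X A B) :
    Normal (2 * R + 2) δ X A B := by
  obtain ⟨hA, hB, hAB, h1, h2, h3, h4⟩ := h
  refine ⟨hA, hB, hAB, fun j => (inf_full hA hB hAB j (h2 j)).1, fun j hj => ?_, fun i => ?_⟩
  · obtain ⟨-, -, k3⟩ := inf_full hA hB hAB j (h2 j)
    have h5 : Nat.card (SelTor (E A B) j) ≤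
      2 ^ ((rk (E A B) + 2) * j) * Nat.card (ShaTor (E A B) (2 ^ j)) := k3
    have h6 := tower_of (n1 := 1) (m1 := 1) le_rfl h5 (by rw [mul_one]; exact h3 j hj) h1
    rwa [mul_one] at h6
  · obtain ⟨k1, k2, k3, k4⟩ := h4 i
    have q := fun j => inf_quots hA hB hAB i j (k2 j)
    have q1 := q 1
    rw [pow_one] at q1
    refine ⟨fun j => (q j).1, ?_, fun j hj => ?_⟩
    · have : Nonempty (ShaTor (E' i A B) 2) := ⟨⟨0, smul_zero _⟩⟩
      have f2 : Finite (ShaTor (E' i A B) 2) := by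
        have := k2 1
        rwa [pow_one] at this
      exact log_of' q1.2.1 q1.2.2 Nat.card_pos k1 k3 hl
    · exact tower_of q1.2.1 (q j).2.2 (k4 j hj) k1

open Classical in
/-- **Theorem.** Let `D ≠ 0` be an integer, `δ, ε > 0` real and `L` natural. (1) There are `R` and
`X₀` such that for all `X ≥ X₀` and all integers `N₁, N₂` of absolute value at most `X ^ L` the number
of the pairs of coprime integers `m ∈ (N₁, N₁ + X]`, `n ∈ (N₂, N₂ + X]` for which `(D m, D n)` is not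
normal is at most `ε X²`. (2) For every abelian group `T` with finitely many elements of order
dividing two (for instance `(ℚ₂ / ℤ₂) ^ r ⊕ G` with `G` finite) there is `X₀` such that for all these
`X, N₁, N₂` the number of the pairs of coprime integers for which the `2 ^ ∞`-Selmer group of one of
the curves `E'_i` is isomorphic to `T` is at most `ε X²`. -/
theorem result (D : ℤ) (hD : D ≠ 0) (δ ε : ℝ) (hδ : 0 < δ) (hε : 0 < ε) (L : ℕ) :
    (∃ R X₀ : ℕ, ∀ (N₁ N₂ : ℤ) (X : ℕ), X₀ ≤ X → |N₁| ≤ (X : ℤ) ^ L → |N₂| ≤ (X : ℤ) ^ L →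
      (((Ioc N₁ (N₁ + X) ×ˢ Ioc N₂ (N₂ + X)).filter (fun t : ℤ × ℤ =>
        IsCoprime t.1 t.2 ∧ ¬ Normal R δ X (D * t.1) (D * t.2))).card : ℝ) ≤ ε * (X : ℝ) ^ 2) ∧
    ∀ (T : Type) [AddCommGroup T], Finite {x : T // x + x = 0} →
      ∃ X₀ : ℕ, ∀ (N₁ N₂ : ℤ) (X : ℕ), X₀ ≤ X → |N₁| ≤ (X : ℤ) ^ L → |N₂| ≤ (X : ℤ) ^ L →
      (((Ioc N₁ (N₁ + X) ×ˢ Ioc N₂ (N₂ + X)).filter (fun t : ℤ × ℤ =>
        IsCoprime t.1 t.2 ∧ ∃ i : Fin 3, Nonempty (Sel (E' i (D * t.1) (D * t.2)) ≃+ T))).card : ℝ) ≤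
            ε * (X : ℝ) ^ 2 := by
  have key : ∀ δ : ℝ, 0 < δ → ∃ R X₀ : ℕ, ∀ (N₁ N₂ : ℤ) (X : ℕ), X₀ ≤ X → |N₁| ≤ (X : ℤ) ^ L →
      |N₂| ≤ (X : ℤ) ^ L →
      (((Ioc N₁ (N₁ + X) ×ˢ Ioc N₂ (N₂ + X)).filter (fun t : ℤ × ℤ =>
        IsCoprime t.1 t.2 ∧ ¬ Normal R δ X (D * t.1) (D * t.2))).card : ℝ) ≤
          ε * (X : ℝ) ^ 2 := by
    intro δ hδ
    obtain ⟨R, X₀, h⟩ := Pool.Agent.Results.MP_e23604_nt.NormalOrderPairs.result D hD (δ / 2) ε
      (by positivity) hε L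
    obtain ⟨X1, hX1⟩ := big_ll ((R + 2) / (δ / 2))
    refine ⟨2 * R + 2, X₀ + X1, fun N₁ N₂ X hX h1 h2 => ?_⟩
    refine le_trans ?_ (h N₁ N₂ X (by omega) h1 h2)
    have hl : (R : ℝ) + 2 ≤ δ / 2 * Real.log (Real.log X) := by
      have h3 := hX1 X (by omega)
      rwa [div_le_iff₀ (by positivity), mul_comm] at h3
    rw [Nat.cast_le]
    refine card_le_card fun t ht => ?_
    obtain ⟨ht1, ht2, ht3⟩ := mem_filter.1 ht
    exact mem_filter.2 ⟨ht1, ht2, fun hcon => ht3 (normal_of hl hcon)⟩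
  refine ⟨key δ hδ, fun T _ _ => ?_⟩
  obtain ⟨R, X₀, h⟩ := key 1 one_pos
  obtain ⟨X1, hX1⟩ := big_ll ((Real.logb 2 (Nat.card {x : T // x + x = 0}) + 1) / (1 / 2))
  refine ⟨X₀ + X1, fun N₁ N₂ X hX h1 h2 => ?_⟩
  refine le_trans ?_ (h N₁ N₂ X (by omega) h1 h2)
  have hl := hX1 X (by omega)
  rw [div_le_iff₀ (by norm_num)] at hl
  rw [Nat.cast_le]
  refine card_le_card fun t ht => ?_
  obtain ⟨ht1, ht2, i, hi⟩ := mem_filter.1 ht
  refine mem_filter.2 ⟨ht1, ht2, fun hcon => ?_⟩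
  obtain ⟨-, -, -, -, -, h6⟩ := hcon
  have h7 := (abs_le.1 (h6 i).2.1).1
  have h8 : Nat.card (SelTor (E' i (D * t.1) (D * t.2)) 1) = Nat.card {x : T // x + x = 0} :=
    tor_of_equiv hi
  rw [h8] at h7
  linarith

end Pool.Agent.Results.MP_a3f657_nt.IsogenousCurves
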