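import Pool.Agent.Q243.PR.InfFour
import Pool.Agent.Results.MP_e23604_nt.NormalOrderPencils

/-!
# The `2 ^ ∞`-Selmer groups of almost all members of a pencil and of their 2-isogenous curves

Let `A = D(t) u₀(t)`, `B = D(t) u₁(t)`, where `u₀`, `u₁`, `u₂ = u₀ - u₁` are polynomials with
integer coefficients, `u_k` a constant times a product of `n_k` irreducible polynomials, and
`D = c ∏ g_i`. Let `E : y² = x (x - A) (x - B)` and let `E'` be its quotient by the subgroup
generated by `(0, 0)`. If `2 n_k < n₀ + n₁ + n₂` for all `k` (or under a weaker balance condition),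
then for almost all `t` in short intervals the `2 ^ ∞`-Selmer group `S` of `E` satisfies
`#S[2 ^ j] ≤ 2 ^ (R j)` for all `j`, while for `E'` the dimension of `S[2]` is `(κ + o (1)) log log M`
with an explicit constant `κ > 0` and `#S[2 ^ j] ≤ 2 ^ (R j) #S[2]` for all `j`. In particular every
isomorphism class of cofinitely generated groups has density zero for the curves `E'`.

The theorem on the Tate-Shafarevich groups is `NormalOrderPencils` (MP_e23604_nt).
-/

set_option autoImplicit false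

namespace Pool.Agent.Results.MP_a3f657_nt.IsogenousPencils

open WeierstrassCurve Finset Polynomial Pool.Agent.TH841.SH.D Pool.Agent.Q243.PR

/-- the curve `y² = x (x - A) (x - B)` -/
def E (A B : ℤ) : WeierstrassCurve ℚ := ⟨0, -((A : ℚ) + B), 0, (A : ℚ) * B, 0⟩

/-- the quotient of `y² = x (x - A) (x - B)` by its subgroup generated by `(0, 0)`: the curve
`y² = x³ + 2 (A + B) x² + (A - B)² x` -/
def E' (A B : ℤ) : WeierstrassCurve ℚ := ⟨0, 2 * ((A : ℚ) + B), 0, ((A : ℚ) - B) ^ 2, 0⟩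

/-- The `2 ^ ∞`-Selmer group `ker (H¹(ℚ, W[2 ^ ∞]) → ∏ H¹(ℚ_v, W))`: continuous cocycles of the
absolute Galois group of `ℚ` with values in the points of 2-power order, which are coboundaries of
points of `W` over all the completions of `ℚ`, modulo the coboundaries of the points of 2-power
order. -/
abbrev Sel (W : WeierstrassCurve ℚ) : Type := SelInf W

/-- its subgroup of the elements killed by `2 ^ j` -/
abbrev SelTor (W : WeierstrassCurve ℚ) (j : ℕ) : Type := SelInfTor W j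

/-- The pair `(A, B)` is normal: `E A B` is an elliptic curve, its `2 ^ ∞`-Selmer group `S` has finite
subgroups `S[2 ^ j]`, of order at most `2 ^ (R j)`, and for the 2-isogenous curve the groups
`S[2 ^ j]` are finite, the dimension of `S[2]` over the field of two elements differs from
`κ log log M` by at most `δ log log M`, and the order of `S[2 ^ j]` is at most `2 ^ (R j)` times
the order of `S[2]`. -/
def Normal (R : ℕ) (κ δ : ℝ) (M : ℕ) (A B : ℤ) : Prop :=
  A ≠ 0 ∧ B ≠ 0 ∧ A ≠ B ∧ (∀ j : ℕ, Finite (SelTor (E A B) j)) ∧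
    (∀ j : ℕ, 1 ≤ j → Nat.card (SelTor (E A B) j) ≤ 2 ^ (R * j)) ∧
    (∀ j : ℕ, Finite (SelTor (E' A B) j)) ∧
      |Real.logb 2 (Nat.card (SelTor (E' A B) 1)) - κ * Real.log (Real.log M)| ≤
        δ * Real.log (Real.log M) ∧
      ∀ j : ℕ, 1 ≤ j → Nat.card (SelTor (E' A B) j) ≤
        2 ^ (R * j) * Nat.card (SelTor (E' A B) 1)

/-- `u_k = a_k ∏ f_{k,i}` -/
noncomputable def u {n : Fin 3 → ℕ} (a : Fin 3 → ℤ) (f : ∀ k : Fin 3, Fin (n k) → ℤ[X])
    (k : Fin 3) : ℤ[X] := C (a k) * ∏ i, f k i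

/-- `D = c ∏ g_i` -/
noncomputable def D {m : ℕ} (c : ℤ) (g : Fin m → ℤ[X]) : ℤ[X] := C c * ∏ i, g i

/-- `v` is a square modulo `f` in `ℚ[t]` -/
def SqMod (f v : ℤ[X]) : Prop := ∃ q : ℚ[X], f.map (Int.castRingHom ℚ) ∣
  (q ^ 2 - v.map (Int.castRingHom ℚ))

/-- `- D u₁`, `- D u₀`, `D u₀` -/
noncomputable def v {n : Fin 3 → ℕ} {m : ℕ} (a : Fin 3 → ℤ) (f : ∀ k : Fin 3, Fin (n k) → ℤ[X])
    (c : ℤ) (g : Fin m → ℤ[X]) : Fin 3 → ℤ[X] :=
  ![-(D c g * u a f 1), -(D c g * u a f 0), D c g * u a f 0]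

open Classical in
/-- the constant `κ = n₀ + n₁ - (n₂ + s) / 2 + r / 2`, where `s` is the number of the factors of
`u₂` modulo which `D u₀` is a square, and `r` the number of the `g_i` modulo which `u₀ u₁` is not
a square -/
noncomputable def κ {n : Fin 3 → ℕ} {m : ℕ} (a : Fin 3 → ℤ) (f : ∀ k : Fin 3, Fin (n k) → ℤ[X])
    (c : ℤ) (g : Fin m → ℤ[X]) : ℝ :=
  (n 0 : ℝ) + n 1 -
    ((n 2 : ℝ) + (univ.filter (fun i => SqMod (f 2 i) (D c g * u a f 0))).card) / 2 +
    ((univ.filter (fun i => ¬ SqMod (g i) (u a f 0 * u a f 1))).card : ℝ) / 2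

open Classical in
/-- the balance condition: `2 n_k + s_k ≤ n₀ + n₁ + n₂` for all `k`, where `s_k` is the number of
the factors `f_{k,i}` modulo which `v_k` is a square -/
def Balanced {n : Fin 3 → ℕ} {m : ℕ} (a : Fin 3 → ℤ) (f : ∀ k : Fin 3, Fin (n k) → ℤ[X])
    (c : ℤ) (g : Fin m → ℤ[X]) : Prop :=
  ∀ k, 2 * n k + (univ.filter (fun i => SqMod (f k i) (v a f c g k))).card ≤ n 0 + n 1 + n 2

lemma normal_of {R : ℕ} {κ δ : ℝ} {M : ℕ} {A B : ℤ}
    (hl : (R : ℝ) + 2 ≤ δ / 2 * Real.log (Real.log M))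
    (h : Pool.Agent.Results.MP_e23604_nt.NormalOrderPencils.Normal R κ (δ / 2) M A B) :
    Normal (2 * R + 2) κ δ M A B := by
  obtain ⟨hA, hB, hAB, h1, h2, h3, k1, k2, k3, k4⟩ := h
  have q := fun j => inf_quot hA hB hAB j (k2 j)
  have q1 := q 1
  rw [pow_one] at q1
  refine ⟨hA, hB, hAB, fun j => (inf_full hA hB hAB j (h2 j)).1, fun j hj => ?_,
    fun j => (q j).1, ?_, fun j hj => ?_⟩
  · obtain ⟨-, -, k3⟩ := inf_full hA hB hAB j (h2 j)
    have h5 : Nat.card (SelTor (E A B) j) ≤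
      2 ^ ((rk (E A B) + 2) * j) * Nat.card (ShaTor (E A B) (2 ^ j)) := k3
    have h6 := tower_of (n1 := 1) (m1 := 1) le_rfl h5 (by rw [mul_one]; exact h3 j hj) h1
    rwa [mul_one] at h6
  · have : Nonempty (ShaTor (E' A B) 2) := ⟨⟨0, smul_zero _⟩⟩
    have f2 : Finite (ShaTor (E' A B) 2) := by
      have := k2 1
      rwa [pow_one] at this
    exact log_of' q1.2.1 q1.2.2 (Nat.card_pos (α := ShaTor (E' A B) 2)) k1 k3 hl
  · exact tower_of q1.2.1 (q j).2.2 (k4 j hj) k1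

/-- `κ > 0` -/
lemma κ_pos {n : Fin 3 → ℕ} {m : ℕ} (a : Fin 3 → ℤ) (f : ∀ k : Fin 3, Fin (n k) → ℤ[X])
    (c : ℤ) (g : Fin m → ℤ[X]) (hn : (∀ k, 2 * n k < n 0 + n 1 + n 2) ∨ Balanced a f c g)
    (h0 : 0 < n 0 + n 1 + n 2) : 0 < κ a f c g := by
  classical
  have h2 : (univ.filter (fun i => SqMod (f 2 i) (D c g * u a f 0))).card ≤ n 2 := by
    refine (card_filter_le _ _).trans ?_
    rw [card_univ, Fintype.card_fin]
  have h3 : 2 * ((univ.filter (fun i => SqMod (f 2 i) (D c g * u a f 0))).card) + n 2 <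
      2 * (n 0 + n 1) + (univ.filter (fun i => SqMod (f 2 i) (D c g * u a f 0))).card := by
    rcases hn with h | h
    · have := h 2
      have h4 : 0 < n 0 + n 1 := by omega
      omega
    · have h5 := h 2
      have e : v a f c g 2 = D c g * u a f 0 := rfl
      rw [e] at h5
      have := h 0
      have := h 1
      omega
  unfold κ
  have h4 : ((n 2 : ℝ) + (univ.filter (fun i => SqMod (f 2 i) (D c g * u a f 0))).card) <
      2 * ((n 0 : ℝ) + n 1) := by
    have : n 2 + (univ.filter (fun i => SqMod (f 2 i) (D c g * u a f 0))).card <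
      2 * (n 0 + n 1) := by omega
    exact_mod_cast this
  have h5 : (0 : ℝ) ≤ ((univ.filter (fun i => ¬ SqMod (g i) (u a f 0 * u a f 1))).card : ℝ) / 2 := by
    positivity
  linarith

open Classical in
/-- **Theorem.** Let `u_k = a_k ∏_{i < n_k} f_{k,i}`, `k = 0, 1, 2`, with `u₀ - u₁ = u₂`, and
`D = c ∏_{i < m} g_i`, where `a_k`, `c` are nonzero and the `n₀ + n₁ + n₂ + m` polynomials
`f_{k,i}`, `g_i` with integer coefficients are irreducible of positive degree and pairwise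
non-associated; assume that `2 n_k < n₀ + n₁ + n₂` for all `k`, or the balance condition (and
`n₀ + n₁ + n₂ > 0`). Then `κ > 0`, and for all `δ, ε > 0` and `L`: (1) there are `R` and `M₀` such that
for `M ≥ M₀` and `|N| ≤ M ^ L` the number of the integers `N < t ≤ N + M` for which
`((D u₀)(t), (D u₁)(t))` is not normal is at most `ε M`; (2) for every abelian group `T` with finitely
many elements of order dividing two there is `M₀` such that for `M ≥ M₀` and `|N| ≤ M ^ L` the number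
of the integers `N < t ≤ N + M` for which the `2 ^ ∞`-Selmer group of the curve `E'` is isomorphic to
`T` is at most `ε M`. -/
theorem result (n : Fin 3 → ℕ) (m : ℕ) (a : Fin 3 → ℤ) (f : ∀ k : Fin 3, Fin (n k) → ℤ[X])
    (c : ℤ) (g : Fin m → ℤ[X]) (ha : ∀ k, a k ≠ 0) (hc : c ≠ 0)
    (hf : ∀ k i, Irreducible (f k i) ∧ 0 < (f k i).natDegree)
    (hg : ∀ i, Irreducible (g i) ∧ 0 < (g i).natDegree)
    (hff : ∀ k i l j, (⟨k, i⟩ : Σ k : Fin 3, Fin (n k)) ≠ ⟨l, j⟩ → ¬ Associated (f k i) (f l j))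
    (hgg : ∀ i j, i ≠ j → ¬ Associated (g i) (g j)) (hfg : ∀ k i j, ¬ Associated (f k i) (g j))
    (hu : u a f 0 - u a f 1 = u a f 2) (h0 : 0 < n 0 + n 1 + n 2)
    (hn : (∀ k, 2 * n k < n 0 + n 1 + n 2) ∨ Balanced a f c g)
    (δ ε : ℝ) (L : ℕ) (hδ : 0 < δ) (hε : 0 < ε) :
    0 < κ a f c g ∧
    (∃ R M₀ : ℕ, ∀ (N : ℤ) (M : ℕ), M₀ ≤ M → |N| ≤ (M : ℤ) ^ L →
      (((Ioc N (N + (M : ℤ))).filter (fun t => ¬ Normal R (κ a f c g) δ M
        ((D c g * u a f 0).eval t) ((D c g * u a f 1).eval t))).card : ℝ) ≤ ε * M) ∧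
    ∀ (T : Type) [AddCommGroup T], Finite {x : T // x + x = 0} →
      ∃ M₀ : ℕ, ∀ (N : ℤ) (M : ℕ), M₀ ≤ M → |N| ≤ (M : ℤ) ^ L →
      (((Ioc N (N + (M : ℤ))).filter (fun t =>
        Nonempty (Sel (E' ((D c g * u a f 0).eval t) ((D c g * u a f 1).eval t)) ≃+
          T))).card : ℝ) ≤ ε * M := by
  have hκ := κ_pos a f c g hn h0
  have key : ∀ δ : ℝ, 0 < δ → ∃ R M₀ : ℕ, ∀ (N : ℤ) (M : ℕ), M₀ ≤ M → |N| ≤ (M : ℤ) ^ L →
      (((Ioc N (N + (M : ℤ))).filter (fun t => ¬ Normal R (κ a f c g) δ M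
        ((D c g * u a f 0).eval t) ((D c g * u a f 1).eval t))).card : ℝ) ≤ ε * M := by
    intro δ hδ
    obtain ⟨R, M₀, h⟩ := Pool.Agent.Results.MP_e23604_nt.NormalOrderPencils.result n m a f c g ha hc
      hf hg hff hgg hfg hu hn (δ / 2) ε L (by positivity) hε
    obtain ⟨X1, hX1⟩ := big_ll ((R + 2) / (δ / 2))
    refine ⟨2 * R + 2, M₀ + X1, fun N M hM hN => ?_⟩
    refine le_trans ?_ (h N M (by omega) hN)
    have hl : (R : ℝ) + 2 ≤ δ / 2 * Real.log (Real.log M) := by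
      have h3 := hX1 M (by omega)
      rwa [div_le_iff₀ (by positivity), mul_comm] at h3
    rw [Nat.cast_le]
    refine card_le_card fun t ht => ?_
    obtain ⟨ht1, ht3⟩ := mem_filter.1 ht
    exact mem_filter.2 ⟨ht1, fun hcon => ht3 (normal_of hl hcon)⟩
  refine ⟨hκ, key δ hδ, fun T _ _ => ?_⟩
  obtain ⟨R, M₀, h⟩ := key (κ a f c g / 2) (by positivity)
  obtain ⟨X1, hX1⟩ :=
    big_ll ((Real.logb 2 (Nat.card {x : T // x + x = 0}) + 1) / (κ a f c g / 2))
  refine ⟨M₀ + X1, fun N M hM hN => ?_⟩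
  refine le_trans ?_ (h N M (by omega) hN)
  have hl := hX1 M (by omega)
  rw [div_le_iff₀ (by positivity)] at hl
  rw [Nat.cast_le]
  refine card_le_card fun t ht => ?_
  obtain ⟨ht1, hi⟩ := mem_filter.1 ht
  refine mem_filter.2 ⟨ht1, fun hcon => ?_⟩
  obtain ⟨-, -, -, -, -, -, h6, -⟩ := hcon
  have h7 := (abs_le.1 h6).1
  have h8 : Nat.card (SelTor (E' ((D c g * u a f 0).eval t) ((D c g * u a f 1).eval t)) 1) =
      Nat.card {x : T // x + x = 0} := tor_of_equiv hi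
  rw [h8] at h7
  linarith

end Pool.Agent.Results.MP_a3f657_nt.IsogenousPencils
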