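import Pool.Agent.Q160.JX.Joint
import Pool.Agent.Y17.X.SelInf

/-!
# The `2 ^ ∞`-Selmer groups of the twists of the CM curve `X_0(49)`: the exact probability of the zero group

`E^D : y² = x³ - 35 D² x - 98 D³` are the quadratic twists of `X_0(49)`, the elliptic curve with complex multiplication by
the integers of `ℚ(√-7)`. For every squarefree `D ≥ 1` all whose prime factors are `≡ 1 mod 4` the sequence
`0 → E^D(ℚ) ⊗ ℚ₂/ℤ₂ → Sel_{2 ^ ∞}(E^D) → Ш(E^D)[2 ^ ∞] → 0` is zero if and only if there is no obstruction (an explicit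
condition with quadratic and quartic residue symbols). In the class of the squarefree `D` whose prime factors are `≡ 1 mod 8`
and split in `ℚ(√-7)`, or `≡ 5 mod 8` and inert, the proportion of the `D ≡ 1 mod 8`, ordered by `D` (that is, by the height of
`E^D`), for which it is zero is `c = ∏_{i ≥ 1} (1 - 2^{1 - 2 i}) = 0.4194...`. For any finite set of elements `m` of the class
the events `Seq (E^(star m D)) = 0`, where `E^(star m D)` is the twist of `E^m` by `D`, are asymptotically independent.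
-/

set_option autoImplicit false

open Finset Filter

namespace Pool.Agent.Results.MP_a3f657_nt.TrivialSelInfX049

open Pool.Agent.TH841.SH.D (Sha Pruf)

open Pool.Agent.Y17.X.SI (SelInf)

/-- the twist `E^D : y² = x³ - 35 D² x - 98 D³` of `X_0(49)` -/
def E (D : ℤ) : WeierstrassCurve ℚ :=
  { a₁ := 0, a₂ := 0, a₃ := 0, a₄ := ((-35 * D ^ 2 : ℤ) : ℚ), a₆ := ((-98 * D ^ 3 : ℤ) : ℚ) }

/-- all the terms of the sequence `0 → E^D(ℚ) ⊗ ℚ₂/ℤ₂ → Sel_{2 ^ ∞}(E^D) → Ш(E^D)[2 ^ ∞] → 0` are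
zero -/
def ZeroSeq (D : ℤ) : Prop :=
  (∀ x : TensorProduct ℤ (E D).toAffine.Point Pruf, x = 0) ∧ (∀ x : SelInf (E D), x = 0) ∧
    ∀ (k : ℕ) (x : Sha (E D)), (2 ^ k : ℕ) • x = 0 → x = 0

/-- `D` is squarefree and all its prime factors are `1` modulo `4` -/
def Admissible (D : ℕ) : Prop := Squarefree D ∧ ∀ p : ℕ, p.Prime → p ∣ D → p % 4 = 1

/-- the obstructions: `d > 1` divides `D`, its prime factors split in `ℚ(√-7)`, it is a square modulo
the other prime factors of `D` that split in `ℚ(√-7)`, and for the primes `p ∣ d` the number `D / d` is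
a square modulo `p` if and only if `-7` is a fourth power modulo `p` -/
def Obstruction (D d : ℕ) : Prop := d ∣ D ∧ 1 < d ∧
  (∀ p : ℕ, p.Prime → p ∣ d → IsSquare (-7 : ZMod p)) ∧
  (∀ p : ℕ, p.Prime → p ∣ D → ¬ p ∣ d → IsSquare (-7 : ZMod p) → IsSquare (d : ZMod p)) ∧
  ∀ p : ℕ, p.Prime → p ∣ d → (IsSquare ((D / d : ℕ) : ZMod p) ↔ ∃ y : ZMod p, y ^ 4 = -7)

/-- the class: `D` is squarefree, its prime factors are `1` modulo `8` and split in `ℚ(√-7)`, or `5`
modulo `8` and inert in `ℚ(√-7)` -/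
def Class (D : ℕ) : Prop := Squarefree D ∧ ∀ p : ℕ, p.Prime → p ∣ D →
  (p % 8 = 1 ∧ (p % 7 = 1 ∨ p % 7 = 2 ∨ p % 7 = 4)) ∨
  (p % 8 = 5 ∧ (p % 7 = 3 ∨ p % 7 = 5 ∨ p % 7 = 6))

/-- the family: the numbers of the class which are `1` modulo `8` -/
def Family (D : ℕ) : Prop := Class D ∧ D % 8 = 1

/-- the squarefree part of the product of two squarefree numbers -/
def star (m D : ℕ) : ℕ := m * D / (Nat.gcd m D) ^ 2

open Classical in
/-- the number of the `D ≤ X` in the family with the property `Q` -/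
noncomputable def count (Q : ℕ → Prop) (X : ℕ) : ℕ := ((Icc 1 X).filter fun D => Family D ∧ Q D).card

section proof

open Pool.Agent.TH841.SH Pool.Agent.Y17.X.SI

/-- the points of order two -/
lemma isR_es {L : Type} [Field L] [Algebra ℚ L] [CharZero L] {D : ℤ} (hD : D ≠ 0) {r : L}
    (hr : r ^ 2 = -7) :
    ∃ a b c : L, IsR ((E D).baseChange L) a b c ∧ a ≠ b ∧ a ≠ c ∧ b ≠ c := by
  have hD0 : (D : L) ≠ 0 := by exact_mod_cast hD
  have hr0 : r ≠ 0 := by
    rintro rfl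
    norm_num at hr
  have hb : ∀ z : ℤ, algebraMap ℚ L ((z : ℤ) : ℚ) = (z : L) := fun z => map_intCast _ z
  refine ⟨7 * D, D * (-7 + r) / 2, D * (-7 - r) / 2, ⟨?_, ?_, ?_, ?_, ?_⟩, ?_, ?_, ?_⟩
  · exact map_zero _
  · refine (map_zero (algebraMap ℚ L)).trans ?_
    ring
  · exact map_zero _
  · refine (hb _).trans ?_
    push_cast
    linear_combination (1 / 4 * (D : L) ^ 2) * hr
  · refine (hb _).trans ?_
    push_cast
    linear_combination (-7 / 4 * (D : L) ^ 3) * hr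
  · intro h
    have h1 : (D : L) * (21 - r) = 0 := by linear_combination 2 * h
    have h2 := (mul_eq_zero.1 h1).resolve_left hD0
    have h3 : r = 21 := (sub_eq_zero.1 h2).symm
    rw [h3] at hr
    norm_num at hr
  · intro h
    have h1 : (D : L) * (21 + r) = 0 := by linear_combination 2 * h
    have h2 := (mul_eq_zero.1 h1).resolve_left hD0
    have h3 : r = -21 := (neg_eq_of_add_eq_zero_right h2).symm
    rw [h3] at hr
    norm_num at hr
  · intro h
    have h1 : (D : L) * r = 0 := by linear_combination h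
    rcases mul_eq_zero.1 h1 with h2 | h2
    · exact hD0 h2
    · exact hr0 h2

lemma fg_es {D : ℤ} (hD : D ≠ 0) : AddGroup.FG (E D).toAffine.Point := by
  have hF : Fact (∀ r : ℚ, r ^ 2 ≠ (-7) + 0 * r) :=
    ⟨fun r hr => by nlinarith [sq_nonneg r]⟩
  have hnf : NumberField (QuadraticAlgebra ℚ (-7) 0) :=
    { to_charZero := inferInstance
      to_finiteDimensional := inferInstance }
  have hω : (⟨0, 1⟩ : QuadraticAlgebra ℚ (-7) 0) ^ 2 = -7 := by
    have e : (-7 : QuadraticAlgebra ℚ (-7) 0) = algebraMap ℚ (QuadraticAlgebra ℚ (-7) 0) (-7) := by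
      rw [map_neg, map_ofNat]
    rw [e, Pool.Agent.Y668.quad_map, pow_two, QuadraticAlgebra.mk_mul_mk]
    congr 1 <;> ring
  obtain ⟨a, b, c, h, h1, h2, h3⟩ := isR_es (L := QuadraticAlgebra ℚ (-7) 0) hD hω
  exact fg_of_three h h1 h2 h3

lemma selInf_es {D : ℤ} (hD : D ≠ 0) :
    (∀ x : SelInf (E D), x = 0) ↔ Q6.XK.Triv D := by
  obtain ⟨r, hr⟩ := IsAlgClosed.exists_pow_nat_eq (-7 : AlgebraicClosure ℚ) (n := 2) (by norm_num)
  obtain ⟨a, b, c, h, h1, h2, h3⟩ := isR_es hD hr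
  exact selInf_iff h h1 h2 h3 (fg_es hD)

lemma zeroSeq_es {D : ℤ} (hD : D ≠ 0) : ZeroSeq D ↔ ∀ x : SelInf (E D), x = 0 := by
  refine ⟨fun h => h.2.1, fun h => ?_⟩
  obtain ⟨h1, h2⟩ := (selInf_es hD).1 h
  exact ⟨@tensor_div_zero _ _ _ h1 _ pruf_div, h, pow_of_two h2⟩

lemma zero_iff {D : ℤ} (hD : D ≠ 0) : ZeroSeq D ↔ Q6.XK.Triv D :=
  (zeroSeq_es hD).trans (selInf_es hD)

lemma class_ne {D : ℕ} (hD : Class D) : (D : ℤ) ≠ 0 := by
  exact_mod_cast hD.1.ne_zero

end proof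

open Classical in
theorem count_congr {Q R : ℕ → Prop} (h : ∀ D, Family D → (Q D ↔ R D)) (X : ℕ) :
    count Q X = Pool.Agent.Q160.JX.count R X := by
  unfold count Pool.Agent.Q160.JX.count
  congr 1
  ext D
  rw [Finset.mem_filter, Finset.mem_filter]
  exact and_congr_right fun _ => and_congr_right fun hD => h D hD

/-- **Theorem.** -/
theorem result :
    (∀ D : ℕ, Admissible D → (ZeroSeq D ↔ ∀ x : SelInf (E D), x = 0) ∧
      (ZeroSeq D ↔ ∀ d, ¬ Obstruction D d)) ∧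
    (∀ m D : ℕ, Class m → Class D → Class (star m D) ∧ m * D = star m D * (Nat.gcd m D) ^ 2) ∧
    ∃ c : ℝ, 0.4194 < c ∧ c < 0.4195 ∧
      Tendsto (fun n : ℕ => ∏ i ∈ range n, (1 - (1 / 2 : ℝ) ^ (2 * i + 1))) atTop (nhds c) ∧
      Tendsto (fun X : ℕ => (count (fun D => ZeroSeq D) X : ℝ) / (count (fun _ => True) X : ℝ))
        atTop (nhds c) ∧
      ∀ G K : Finset ℕ, (∀ m ∈ G, Class m) → (∀ m ∈ K, Class m) → Disjoint G K →
        Tendsto (fun X : ℕ => (count (fun D => (∀ m ∈ G, ZeroSeq (star m D)) ∧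
            ∀ m ∈ K, ¬ ZeroSeq (star m D)) X : ℝ) / (count (fun _ => True) X : ℝ))
          atTop (nhds (c ^ G.card * (1 - c) ^ K.card)) ∧
        ∃ (a : ℝ) (X₀ : ℕ), 0 < a ∧ ∀ X : ℕ, X₀ ≤ X → a * (X * (Real.log X) ^ (-(3 / 4) : ℝ)) ≤
          (count (fun D => (∀ m ∈ G, ZeroSeq (star m D)) ∧
            ∀ m ∈ K, ¬ ZeroSeq (star m D)) X : ℝ) := by
  classical
  obtain ⟨-, hc1, hc2, hT⟩ := Pool.Agent.Q160.JX.const
  have e0 : ∀ X, count (fun _ => True) X = Pool.Agent.Q160.JX.count (fun _ => True) X := fun _ => rfl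
  have e : ∀ G K : Finset ℕ, (∀ m ∈ G, Class m) → (∀ m ∈ K, Class m) → ∀ X,
      count (fun D => (∀ m ∈ G, ZeroSeq (star m D)) ∧ ∀ m ∈ K, ¬ ZeroSeq (star m D)) X =
      Pool.Agent.Q160.JX.count (fun D => (∀ m ∈ G, Q6.XK.Triv (Pool.Agent.Q160.JX.star m D : ℤ)) ∧
        ∀ m ∈ K, ¬ Q6.XK.Triv (Pool.Agent.Q160.JX.star m D : ℤ)) X := by
    intro G K hG hK X
    refine count_congr (fun D hD => ?_) X
    exact and_congr
      (forall_congr' fun m => forall_congr' fun hm =>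
        zero_iff (class_ne (Pool.Agent.Q160.JX.star_class (hG m hm) hD.1).1))
      (forall_congr' fun m => forall_congr' fun hm => not_congr
        (zero_iff (class_ne (Pool.Agent.Q160.JX.star_class (hK m hm) hD.1).1)))
  refine ⟨fun D hD => ⟨?_, ?_⟩, fun m D hm hD => Pool.Agent.Q160.JX.star_class hm hD,
    Pool.Agent.Y703.CQ.c2, hc1, hc2, hT, ?_, ?_⟩
  · exact zeroSeq_es (by exact_mod_cast hD.1.ne_zero)
  · rw [zero_iff (by exact_mod_cast hD.1.ne_zero)]
    exact Q6.XK.triv_crit hD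
  · have hone : Class 1 := by
      refine ⟨squarefree_one, fun p hp hp1 => ?_⟩
      exact absurd (Nat.dvd_one.1 hp1) hp.ne_one
    have h1 : ∀ m ∈ ({1} : Finset ℕ), Class m := fun m hm => by
      rw [mem_singleton] at hm
      rw [hm]
      exact hone
    have h2 : ∀ m ∈ (∅ : Finset ℕ), Class m := fun m hm => absurd hm (notMem_empty m)
    obtain ⟨h3, -⟩ := Pool.Agent.Q160.JX.main {1} ∅ h1 h2 (disjoint_empty_right _)
    rw [card_singleton, card_empty, pow_one, pow_zero, mul_one] at h3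
    refine h3.congr fun X => ?_
    rw [← e0, ← e _ _ h1 h2]
    have h4 : (fun D => (∀ m ∈ ({1} : Finset ℕ), ZeroSeq (star m D)) ∧
        ∀ m ∈ (∅ : Finset ℕ), ¬ ZeroSeq (star m D)) = fun D : ℕ => ZeroSeq D := by
      funext D
      have h5 : star 1 D = D := by
        unfold star
        rw [one_mul, Nat.gcd_one_left, one_pow, Nat.div_one]
      simp [h5]
    rw [h4]
  · intro G K hG hK hd
    obtain ⟨hlim, hlow⟩ := Pool.Agent.Q160.JX.main G K hG hK hd
    simp only [e G K hG hK, e0]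
    exact ⟨hlim, hlow⟩

end Pool.Agent.Results.MP_a3f657_nt.TrivialSelInfX049
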